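import Pool.Agent.X185.HS.Chain

set_option autoImplicit false

/-! MP_484ff1_al: the free group of rank two is a finitely generated (even finitely presented)
group whose poset of quasi-parabolic structures contains a chain order isomorphic to `ℝ`. -/

namespace Pool.Agent.Results.MP_484ff1_al.FreeGroupChain

open Pool.Agent.X185.HS

/-- `H_qp(F_2)` contains an uncountable chain, indeed an order embedded copy of `ℝ`. -/
theorem result : Group.FG (FreeGroup (Fin 2)) ∧ ∃ f : ℝ ↪o HQP (FreeGroup (Fin 2)),
    IsChain (· ≤ ·) (Set.range f) ∧ ¬ (Set.range f).Countable :=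
  ⟨inferInstance, chain_of_surj F2toWr F2toWr_surj⟩

end Pool.Agent.Results.MP_484ff1_al.FreeGroupChain
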